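import Pool.Agent.Helper34.CAR.GoalsC

/-!
# CAR5-CNT: the core indices inject into the descendants of an index
-/

set_option autoImplicit false

namespace Pool.Agent.Helper12.CAR

open Pool.Agent.Helper39.Uct Pool.Agent.Helper39.CR Pool.Agent.Helper34.CAR

section

variable {B : Type} [CStarAlgebra B] {θ : B →⋆ₐ[ℂ] B} (s : Sys B θ) (k : ℕ)

open Classical in
/-- The number of core indices. -/
noncomputable def T (m : ℕ) : ℕ := (Finset.univ.filter (fun x : s.S (k + m) => core s k m x)).card

open Classical in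
/-- The number of descendants of `p` with residue `r`. -/
noncomputable def D (n : ℕ) (p : s.S k) (m : ℕ) (r : ZMod n) : ℕ :=
  (Finset.univ.filter (fun x : s.S (k + m) => desc s k p m x ∧ wz s n (k + m) x = r)).card

theorem c0_ne_c1 (i : ℕ) : s.c0 i ≠ s.c1 i := (s.step i).1

theorem two_le_card (i : ℕ) : 2 ≤ Fintype.card (s.C i) :=
  Fintype.one_lt_card_iff.2 ⟨s.c0 i, s.c1 i, c0_ne_c1 s i⟩

theorem T_zero : T s k 0 = Fintype.card (s.S k) := by
  classical
  unfold T
  have : (Finset.univ.filter (fun x : s.S (k + 0) => core s k 0 x)) = Finset.univ := by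
    ext x
    simp [core]
  rw [this]
  rfl

theorem T_succ (m : ℕ) : T s k (m + 1) = T s k m * 2 := by
  classical
  have h2 : ({s.c0 (k + m), s.c1 (k + m)} : Finset (s.C (k + m))).card = 2 :=
    Finset.card_pair (c0_ne_c1 s (k + m))
  unfold T
  rw [← h2, ← Finset.card_product]
  refine Finset.card_equiv (s.e (k + m)) (fun x => ?_)
  rw [Finset.mem_product, Finset.mem_filter, Finset.mem_filter, Finset.mem_insert,
    Finset.mem_singleton]
  simp only [Finset.mem_univ, true_and]
  exact Iff.rfl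

theorem T_eq (m : ℕ) : T s k m = Fintype.card (s.S k) * 2 ^ m := by
  induction m with
  | zero => rw [T_zero, pow_zero, mul_one]
  | succ m ih => rw [T_succ, ih, pow_succ, mul_assoc]

theorem D_succ (n : ℕ) (p : s.S k) (m : ℕ) (r : ZMod n) :
    D s k n p (m + 1) r =
      D s k n p m (r - 1) + D s k n p m r * (Fintype.card (s.C (k + m)) - 1) := by
  classical
  have h1 : ({s.c0 (k + m)} : Finset (s.C (k + m))).card = 1 := Finset.card_singleton _
  have h2 : (Finset.univ.erase (s.c0 (k + m))).card = Fintype.card (s.C (k + m)) - 1 := by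
    rw [Finset.card_erase_of_mem (Finset.mem_univ _), Finset.card_univ]
  have h3 : D s k n p m (r - 1) = ((Finset.univ.filter (fun x : s.S (k + m) =>
      desc s k p m x ∧ wz s n (k + m) x = r - 1)) ×ˢ
        ({s.c0 (k + m)} : Finset (s.C (k + m)))).card := by
    rw [Finset.card_product, h1, mul_one]
    rfl
  have h4 : D s k n p m r * (Fintype.card (s.C (k + m)) - 1) =
      ((Finset.univ.filter (fun x : s.S (k + m) =>
      desc s k p m x ∧ wz s n (k + m) x = r)) ×ˢ (Finset.univ.erase (s.c0 (k + m)))).card := by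
    rw [Finset.card_product, h2]
    rfl
  rw [h3, h4, ← Finset.card_union_of_disjoint]
  · refine Finset.card_equiv (s.e (k + m)) (fun x => ?_)
    rw [Finset.mem_union, Finset.mem_product, Finset.mem_product, Finset.mem_filter,
      Finset.mem_filter, Finset.mem_filter, Finset.mem_singleton, Finset.mem_erase]
    simp only [Finset.mem_univ, true_and, and_true]
    have hd : desc s k p (m + 1) x ↔ desc s k p m (s.e (k + m) x).1 := Iff.rfl
    have hw : wz s n (k + (m + 1)) x = wz s n (k + m) (s.e (k + m) x).1 +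
        if (s.e (k + m) x).2 = s.c0 (k + m) then 1 else 0 := by
      change ((s.wt (k + m + 1) x : ℕ) : ZMod n) = _
      simp only [Sys.wt, Nat.cast_add, Nat.cast_ite, Nat.cast_one, Nat.cast_zero]
      rfl
    rw [hd, hw]
    by_cases h5 : (s.e (k + m) x).2 = s.c0 (k + m)
    · rw [if_pos h5]
      constructor
      · rintro ⟨h6, h7⟩
        exact Or.inl ⟨⟨h6, eq_sub_of_add_eq h7⟩, h5⟩
      · rintro (⟨⟨h6, h7⟩, -⟩ | ⟨-, h8⟩)
        · exact ⟨h6, by rw [h7, sub_add_cancel]⟩
        · exact absurd h5 h8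
    · rw [if_neg h5, add_zero]
      constructor
      · rintro ⟨h6, h7⟩
        exact Or.inr ⟨⟨h6, h7⟩, h5⟩
      · rintro (⟨-, h8⟩ | ⟨⟨h6, h7⟩, -⟩)
        · exact absurd h8 h5
        · exact ⟨h6, h7⟩
  · rw [Finset.disjoint_left]
    intro x hx hx'
    rw [Finset.mem_product, Finset.mem_singleton] at hx
    rw [Finset.mem_product, Finset.mem_erase] at hx'
    exact hx'.2.1 hx.2

theorem exists_desc (p : s.S k) (m : ℕ) : ∀ i ≤ m, ∃ x : s.S (k + m), desc s k p m x ∧
    s.wt (k + m) x = s.wt k p + i := by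
  induction m with
  | zero =>
    intro i hi
    refine ⟨p, rfl, ?_⟩
    have : i = 0 := by omega
    rw [this]
    rfl
  | succ m ih =>
    intro i hi
    rcases Nat.lt_or_ge m i with h | h
    · obtain ⟨x, h1, h2⟩ := ih m le_rfl
      refine ⟨(s.e (k + m)).symm (x, s.c0 (k + m)), ?_, ?_⟩
      · change desc s k p m (s.e (k + m) ((s.e (k + m)).symm (x, s.c0 (k + m)))).1
        rw [Equiv.apply_symm_apply]
        exact h1
      · change s.wt (k + m + 1) _ = _
        simp only [Sys.wt, Equiv.apply_symm_apply, if_true]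
        omega
    · obtain ⟨x, h1, h2⟩ := ih i h
      refine ⟨(s.e (k + m)).symm (x, s.c1 (k + m)), ?_, ?_⟩
      · change desc s k p m (s.e (k + m) ((s.e (k + m)).symm (x, s.c1 (k + m)))).1
        rw [Equiv.apply_symm_apply]
        exact h1
      · change s.wt (k + m + 1) _ = _
        simp only [Sys.wt, Equiv.apply_symm_apply, if_neg (c0_ne_c1 s (k + m)).symm]
        omega

theorem D_pos {n : ℕ} (hn : 1 ≤ n) (p : s.S k) (r : ZMod n) : 1 ≤ D s k n p n r := by
  classical
  have : NeZero n := ⟨by omega⟩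
  obtain ⟨x, h1, h2⟩ := exists_desc s k p n (r - (s.wt k p : ZMod n)).val
    (ZMod.val_lt _).le
  unfold D
  rw [Nat.one_le_iff_ne_zero, ← Nat.pos_iff_ne_zero, Finset.card_pos]
  refine ⟨x, Finset.mem_filter.2 ⟨Finset.mem_univ _, h1, ?_⟩⟩
  change ((s.wt (k + n) x : ℕ) : ZMod n) = r
  rw [h2, Nat.cast_add, ZMod.natCast_zmod_val]
  ring

/-- The product of the sizes. -/
noncomputable def P (n : ℕ) (j : ℕ) : ℕ := ∏ i ∈ Finset.range j, Fintype.card (s.C (k + (n + i)))

theorem P_succ (n j : ℕ) : P s k n (j + 1) = P s k n j * Fintype.card (s.C (k + (n + j))) := by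
  unfold P
  rw [Finset.prod_range_succ]

theorem P_le_D {n : ℕ} (hn : 1 ≤ n) (p : s.S k) (j : ℕ) : ∀ r : ZMod n,
    P s k n j ≤ D s k n p (n + j) r := by
  induction j with
  | zero =>
    intro r
    have := D_pos s k hn p r
    simpa [P] using this
  | succ j ih =>
    intro r
    have h1 : D s k n p (n + (j + 1)) r = D s k n p (n + j) (r - 1) +
      D s k n p (n + j) r * (Fintype.card (s.C (k + (n + j))) - 1) := D_succ s k n p (n + j) r
    rw [h1, P_succ]
    have h2 := ih r
    have h3 := ih (r - 1)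
    have h4 := two_le_card s (k + (n + j))
    obtain ⟨c, hc⟩ : ∃ c, Fintype.card (s.C (k + (n + j))) = c + 1 := ⟨_, (Nat.sub_add_cancel
      (by omega : 1 ≤ Fintype.card (s.C (k + (n + j))))).symm⟩
    rw [hc, Nat.add_sub_cancel]
    have h5 : P s k n j * c ≤ D s k n p (n + j) r * c := Nat.mul_le_mul_right _ h2
    calc P s k n j * (c + 1) = P s k n j + P s k n j * c := by ring
      _ ≤ _ := Nat.add_le_add h3 h5

theorem P_add (n j l : ℕ) : P s k n j * 2 ^ l ≤ P s k n (j + l) := by
  induction l with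
  | zero => simp
  | succ l ih =>
    rw [← Nat.add_assoc, P_succ, pow_succ, ← mul_assoc]
    exact Nat.mul_le_mul ih (two_le_card s _)

theorem exists_big (hC : ∀ N, ∃ i ≥ N, 4 ≤ Fintype.card (s.C i)) (n t : ℕ) :
    ∃ j, 2 ^ t * 2 ^ j ≤ P s k n j := by
  induction t with
  | zero => exact ⟨0, by simp [P]⟩
  | succ t ih =>
    obtain ⟨j, hj⟩ := ih
    obtain ⟨i, hi, hi4⟩ := hC (k + (n + j))
    obtain ⟨l, rfl⟩ : ∃ l, i = k + (n + (j + l)) := ⟨i - (k + (n + j)), by omega⟩
    refine ⟨j + l + 1, ?_⟩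
    rw [P_succ]
    have h1 := P_add s k n j l
    calc 2 ^ (t + 1) * 2 ^ (j + l + 1) = (2 ^ t * 2 ^ j) * 2 ^ l * 4 := by ring
      _ ≤ P s k n j * 2 ^ l * 4 := Nat.mul_le_mul_right _ (Nat.mul_le_mul_right _ hj)
      _ ≤ P s k n (j + l) * 4 := Nat.mul_le_mul_right _ h1
      _ ≤ _ := Nat.mul_le_mul_left _ hi4

end

theorem cnt : S_CNT := by
  classical
  intro B _ θ s n k p hn hC
  obtain ⟨t, ht⟩ : ∃ t, Fintype.card (s.S k) * 2 ^ n < 2 ^ t := ⟨_, Nat.lt_two_pow_self⟩
  obtain ⟨j, hj⟩ := exists_big s k hC n t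
  have hT : ∀ r : ZMod n, T s k (n + j) < D s k n p (n + j) r := by
    intro r
    have h1 := P_le_D s k hn p j r
    have h2 : T s k (n + j) < 2 ^ t * 2 ^ j := by
      rw [T_eq, pow_add, ← mul_assoc]
      exact Nat.mul_lt_mul_of_pos_right ht (Nat.two_pow_pos j)
    omega
  have hf : ∀ r : ZMod n, ∃ f : {x : s.S (k + (n + j)) // core s k (n + j) x ∧
      wz s n (k + (n + j)) x = r} ↪ s.S (k + (n + j)),
      Set.range f ⊆ (Finset.univ.filter (fun x : s.S (k + (n + j)) =>
        desc s k p (n + j) x ∧ wz s n (k + (n + j)) x = r) : Finset _) := by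
    intro r
    refine Function.Embedding.exists_of_card_le_finset ?_
    have h1 : Fintype.card {x : s.S (k + (n + j)) // core s k (n + j) x ∧
        wz s n (k + (n + j)) x = r} ≤ T s k (n + j) := by
      rw [Fintype.card_subtype]
      unfold T
      refine Finset.card_le_card ?_
      intro x hx
      rw [Finset.mem_filter] at hx ⊢
      exact ⟨hx.1, hx.2.1⟩
    exact h1.trans (hT r).le
  choose f hf using hf
  let g : ZMod n → s.S (k + (n + j)) → s.S (k + (n + j)) := fun r x =>
    if h : core s k (n + j) x ∧ wz s n (k + (n + j)) x = r then f r ⟨x, h⟩ else x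
  have hg : ∀ r x, core s k (n + j) x → wz s n (k + (n + j)) x = r →
      desc s k p (n + j) (g r x) ∧ wz s n (k + (n + j)) (g r x) = r := by
    intro r x h1 h2
    have h3 : g r x = f r ⟨x, h1, h2⟩ := dif_pos ⟨h1, h2⟩
    rw [h3]
    have h4 := hf r (Set.mem_range_self (⟨x, h1, h2⟩ : {x : s.S (k + (n + j)) //
      core s k (n + j) x ∧ wz s n (k + (n + j)) x = r}))
    rw [Finset.mem_coe, Finset.mem_filter] at h4
    exact h4.2
  refine ⟨n + j, fun x => g (wz s n (k + (n + j)) x) x, ?_, ?_, ?_⟩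
  · intro x hx
    exact hg _ x hx rfl
  · intro x y hx hy hxy
    have h1 := (hg _ x hx rfl).2
    have h2 := (hg _ y hy rfl).2
    have h3 : wz s n (k + (n + j)) x = wz s n (k + (n + j)) y := by
      rw [← h1, ← h2]
      exact congrArg _ hxy
    have hxy' : g (wz s n (k + (n + j)) y) x = g (wz s n (k + (n + j)) y) y := by
      have := hxy
      simp only at this
      rw [h3] at this
      exact this
    have h4 : g (wz s n (k + (n + j)) y) x = f _ ⟨x, hx, h3⟩ := dif_pos ⟨hx, h3⟩
    have h5 : g (wz s n (k + (n + j)) y) y = f _ ⟨y, hy, rfl⟩ := dif_pos ⟨hy, rfl⟩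
    rw [h4, h5] at hxy'
    exact congrArg Subtype.val ((f _).injective hxy')
  · by_contra hcon
    push Not at hcon
    have h1 : T s k (n + j) = Fintype.card (s.S (k + (n + j))) := by
      unfold T
      rw [← Finset.card_univ]
      congr 1
      ext x
      simp [hcon x]
    have h2 : D s k n p (n + j) 0 ≤ Fintype.card (s.S (k + (n + j))) := by
      unfold D
      exact Finset.card_le_univ _
    have h3 := hT 0
    omega

end Pool.Agent.Helper12.CAR
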